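import Pool.Agent.RegK.Kappa
import Pool.Agent.RegJ.ArovDefs

open Filter Topology Complex MeasureTheory Set Metric Matrix
open scoped Real ENNReal NNReal ComplexOrder

namespace Pool.Agent.H54RJ

open Pool.Agent.RegJ Pool.Agent.RegK

set_option linter.unusedSectionVars false

variable {m n : Type*} [Fintype m] [DecidableEq m] [Fintype n] [DecidableEq n]

/-- the estimate for `c = g a + b`, `|g a| ≤ ρ |a|`, `|a| ≤ |b|` -/
lemma est {ρ : ℝ} (h0 : 0 ≤ ρ) (h1 : ρ < 1) {c b : n → ℂ} {s : ℝ} (hs : s ≤ nsq b)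
    (hc : nsq c ≤ ρ ^ 2 * s) :
    (1 - ρ) ^ 2 * nsq b ≤ nsq (c + b) ∧ 0 ≤ (star (c + b) ⬝ᵥ b).re := by
  set p := √(nsq b) with hp
  set q := √(nsq c) with hq
  have hp0 : 0 ≤ p := Real.sqrt_nonneg _
  have hq0 : 0 ≤ q := Real.sqrt_nonneg _
  have hpp : p ^ 2 = nsq b := Real.sq_sqrt (nsq_nonneg _)
  have hqq : q ^ 2 = nsq c := Real.sq_sqrt (nsq_nonneg _)
  have hqp : q ≤ ρ * p := by
    refine (sq_le_sq₀ hq0 (by positivity)).1 ?_
    rw [hqq, mul_pow, hpp]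
    exact hc.trans (by gcongr)
  have hcs : |(star c ⬝ᵥ b).re| ≤ q * p := by
    refine (Complex.abs_re_le_norm _).trans ?_
    refine (sq_le_sq₀ (norm_nonneg _) (by positivity)).1 ?_
    rw [mul_pow, hqq, hpp]
    exact cs c b
  have hlow := (abs_le.1 hcs).1
  constructor
  · rw [nsq_add, ← hpp, ← hqq]
    have h2 : (1 - ρ) * p ≤ p - q := by linarith
    have h3 : ((1 - ρ) * p) ^ 2 ≤ (p - q) ^ 2 := by
      have : 0 ≤ (1 - ρ) * p := mul_nonneg (by linarith) hp0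
      gcongr
    nlinarith
  · rw [star_add, add_dotProduct, star_dot_self, Complex.add_re, Complex.ofReal_re, ← hpp]
    have h4 : q * p ≤ ρ * p * p := by gcongr
    nlinarith [mul_nonneg hp0 hp0]

lemma nsq_of_posSemidef {f : Matrix n m ℂ} (h : (1 - fᴴ * f).PosSemidef) (x : m → ℂ) :
    nsq (f *ᵥ x) ≤ nsq x := by
  rw [posSemidef_iff_dotProduct_mulVec] at h
  have h1 := h.2 x
  rw [sub_mulVec, one_mulVec, dotProduct_sub, star_dot_self, ← mulVec_mulVec, star_dot_conj,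
    star_dot_self, ← ofReal_sub] at h1
  have h2 := Complex.zero_le_real.1 h1
  linarith

/-- **A strictly contractive `κ` has no non-constant A-singular factor.** -/
theorem const_of_strict_aux {S : ℂ → Matrix (m ⊕ n) (m ⊕ n) ℂ} (hS : ASingular S)
    {g k : ℂ → Matrix n m ℂ} {ρ : ℝ} (h0 : 0 ≤ ρ) (h1 : ρ < 1)
    (hga : ∀ z ∈ disc, AnalyticPt g z) (hg : ∀ z ∈ disc, ∀ y, nsq (g z *ᵥ y) ≤ ρ ^ 2 * nsq y)
    (hka : ∀ z ∈ disc, AnalyticPt k z) (hkb : ∀ z ∈ disc, ∀ i j, ‖k z i j‖ ≤ 1)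
    (hk : ∀ z ∈ disc, (k z * (S z).toBlocks₁₂ + (S z).toBlocks₂₂) * g z
      = k z * (S z).toBlocks₁₁ + (S z).toBlocks₂₁) :
    ∃ C, ∀ z ∈ disc, S z = C := by
  set V : ℂ → Matrix (m ⊕ n) (m ⊕ n) ℂ := fun z => (S z)⁻¹ with hV
  have hSa : ∀ z ∈ disc, AnalyticPt S z := analyticPt_iff.1 fun i k => (hS.smirnov i k).1
  have hVa : ∀ z ∈ disc, AnalyticPt V z := analyticPt_iff.1 fun i k => (hS.smirnov_inv i k).1
  have hSm : MajM S := fun i k => (hS.smirnov i k).maj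
  have hVm : MajM V := fun i k => (hS.smirnov_inv i k).maj
  have hSdet : DifferentiableOn ℂ (fun z => (S z).det) disc := fun z hz =>
    (hSa z hz).det.differentiableAt.differentiableWithinAt
  have hSdne : ∃ z ∈ disc, (S z).det ≠ 0 := by
    obtain ⟨z, hz, -, h0⟩ := hS.jInner.det_ne_zero
    exact ⟨z, hz, h0⟩
  have hSV : ∀ z ∈ disc, S z * V z = 1 := by
    intro z hz
    apply eq_of_ev (φ := fun z => S z * V z) (ψ := fun _ => 1)
      (continuousAt_entries ((hSa z hz).mul (hVa z hz))) continuousAt_const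
    filter_upwards [ev_ne hSdet hSdne hz] with y hy
    exact mul_nonsing_inv _ (isUnit_iff_ne_zero.2 hy.2)
  have hSC : ∀ z ∈ disc, JC (S z) := fun z hz =>
    (jc_iff _).1 (hS.jInner.contractive z hz (hSa z hz))
  set T : ℂ → Matrix n n ℂ := fun z => k z * (S z).toBlocks₁₂ + (S z).toBlocks₂₂ with hT
  set M : ℂ → Matrix n n ℂ := fun z => g z * (V z).toBlocks₁₂ + (V z).toBlocks₂₂ with hM
  have hTM : ∀ z ∈ disc, T z * M z = 1 := by
    intro z hz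
    have b12 : (S z).toBlocks₁₁ * (V z).toBlocks₁₂ + (S z).toBlocks₁₂ * (V z).toBlocks₂₂ = 0 := by
      rw [← mul_blocks12, hSV z hz, ← fromBlocks_one, toBlocks_fromBlocks₁₂]
    have b22 : (S z).toBlocks₂₁ * (V z).toBlocks₁₂ + (S z).toBlocks₂₂ * (V z).toBlocks₂₂ = 1 := by
      rw [← mul_blocks22, hSV z hz, ← fromBlocks_one, toBlocks_fromBlocks₂₂]
    simp only [hT, hM]
    rw [Matrix.mul_add, ← Matrix.mul_assoc, hk z hz]
    calc (k z * (S z).toBlocks₁₁ + (S z).toBlocks₂₁) * (V z).toBlocks₁₂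
          + (k z * (S z).toBlocks₁₂ + (S z).toBlocks₂₂) * (V z).toBlocks₂₂
        = k z * ((S z).toBlocks₁₁ * (V z).toBlocks₁₂ + (S z).toBlocks₁₂ * (V z).toBlocks₂₂)
          + ((S z).toBlocks₂₁ * (V z).toBlocks₁₂ + (S z).toBlocks₂₂ * (V z).toBlocks₂₂) := by
          simp only [Matrix.add_mul, Matrix.mul_add, Matrix.mul_assoc]; abel
      _ = 1 := by rw [b12, b22, Matrix.mul_zero, zero_add]
  have hTu : ∀ z ∈ disc, IsUnit (T z).det := fun z hz => isUnit_det_of_right_inverse (hTM z hz)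
  have hTinv : ∀ z ∈ disc, (M z)⁻¹ = T z := fun z hz =>
    inv_eq_left_inv (hTM z hz)
  have hTa : ∀ z ∈ disc, AnalyticPt T z := fun z hz =>
    ((hka z hz).mul (hSa z hz).b12).add (hSa z hz).b22
  have hTm : MajM T := ((MajM.of_bound hkb).mul fun i k => hSm _ _).add fun i k => hSm _ _
  -- boundary values
  have hgb : ∀ z ∈ disc, ∀ i j, ‖g z i j‖ ≤ 1 := by
    intro z hz i j
    refine entry_le_one (fun y => (hg z hz y).trans ?_) i j
    have : ρ ^ 2 ≤ 1 := by nlinarith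
    nlinarith [nsq_nonneg y]
  have hbdry : ∀ᵐ ζ ∂σ, ∃ (S0 : Matrix (m ⊕ n) (m ⊕ n) ℂ) (g0 : Matrix n m ℂ),
      JU S0 ∧ HasBdryValue S ζ S0 ∧ HasBdryValue V ζ S0⁻¹ ∧
      (∀ y, nsq (g0 *ᵥ y) ≤ ρ ^ 2 * nsq y) ∧
      IsUnit (g0 * (S0⁻¹).toBlocks₁₂ + (S0⁻¹).toBlocks₂₂).det ∧
      HasBdryValue T ζ (g0 * (S0⁻¹).toBlocks₁₂ + (S0⁻¹).toBlocks₂₂)⁻¹ := by
    have hfat : ∀ᵐ ζ ∂σ, ∀ i j, ∃ L, Tendsto (fun r : ℝ => g (r * ζ) i j) (𝓝[<] 1) (𝓝 L) := by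
      rw [ae_all_iff]
      intro i
      rw [ae_all_iff]
      intro j
      exact fatou ((analyticPt_iff.2 hga) i j) (C := 1) fun z hz => hgb z hz i j
    filter_upwards [hS.jInner.boundary, hfat, ae_norm] with ζ h4 h5 hn
    obtain ⟨S0, hS0, hSU⟩ := h4
    choose g0 hg0 using h5
    have hSU' : JU S0 := hSU
    have hV0 : HasBdryValue V ζ S0⁻¹ := tendsto_minv hS0 hSU'.isUnit.ne_zero
    have hg0' : HasBdryValue g ζ (Matrix.of g0) := tendsto_entries.2 fun i j => hg0 i j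
    have hg0c : ∀ y, nsq ((Matrix.of g0) *ᵥ y) ≤ ρ ^ 2 * nsq y := by
      intro y
      apply le_of_tendsto (tendsto_nsq hg0' y)
      filter_upwards [eventually_r] with r hr
      exact hg _ (dil_mem hr hn) y
    have hVU : JU S0⁻¹ := hSU'.inv
    have hMu : IsUnit ((Matrix.of g0) * (S0⁻¹).toBlocks₁₂ + (S0⁻¹).toBlocks₂₂).det := by
      apply isUnit_of_nsq_le' (c := (1 - ρ) ^ 2) (by have : 0 < 1 - ρ := by linarith
                                                     positivity)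
      intro u
      have e1 := hVU.eq22 u
      have e2 := (est h0 h1 (c := (Matrix.of g0) *ᵥ ((S0⁻¹).toBlocks₁₂ *ᵥ u))
        (b := (S0⁻¹).toBlocks₂₂ *ᵥ u) (s := nsq ((S0⁻¹).toBlocks₁₂ *ᵥ u))
        (by linarith [nsq_nonneg u]) (hg0c _)).1
      rw [add_mulVec, ← mulVec_mulVec]
      refine le_trans ?_ e2
      have : nsq u ≤ nsq ((S0⁻¹).toBlocks₂₂ *ᵥ u) := by
        linarith [nsq_nonneg ((S0⁻¹).toBlocks₁₂ *ᵥ u)]
      gcongr
    refine ⟨S0, Matrix.of g0, hSU', hS0, hV0, hg0c, hMu, ?_⟩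
    have t1 : HasBdryValue M ζ ((Matrix.of g0) * (S0⁻¹).toBlocks₁₂ + (S0⁻¹).toBlocks₂₂) :=
      (tendsto_mmul hg0' (tendsto_b12 hV0)).add (tendsto_b22 hV0)
    refine (tendsto_minv t1 hMu.ne_zero).congr' ?_
    filter_upwards [eventually_r] with r hr
    exact hTinv _ (dil_mem hr hn)
  -- `F = V₂₂ T` is bounded and accretive
  set F : ℂ → Matrix n n ℂ := fun z => (V z).toBlocks₂₂ * T z with hF
  have hFa : ∀ z ∈ disc, AnalyticPt F z := fun z hz => ((hVa z hz).b22).mul (hTa z hz)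
  have hFm : MajM F := MajM.mul (fun i k => hVm _ _) hTm
  have hFb : ∀ᵐ ζ ∂σ, ∃ L, HasBdryValue F ζ L ∧
      (∀ x, nsq (L *ᵥ x) ≤ ((1 - ρ)⁻¹) ^ 2 * nsq x) ∧ ∀ x, 0 ≤ (star x ⬝ᵥ (L *ᵥ x)).re := by
    filter_upwards [hbdry] with ζ hζ
    obtain ⟨S0, g0, hSU, hS0, hV0, hg0, hMu, hT0⟩ := hζ
    have hVU : JU S0⁻¹ := hSU.inv
    refine ⟨_, tendsto_mmul (tendsto_b22 hV0) hT0, ?_⟩
    have key : ∀ x, (1 - ρ) ^ 2 * nsq (((S0⁻¹).toBlocks₂₂ *
        (g0 * (S0⁻¹).toBlocks₁₂ + (S0⁻¹).toBlocks₂₂)⁻¹) *ᵥ x) ≤ nsq x ∧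
        0 ≤ (star x ⬝ᵥ (((S0⁻¹).toBlocks₂₂ *
        (g0 * (S0⁻¹).toBlocks₁₂ + (S0⁻¹).toBlocks₂₂)⁻¹) *ᵥ x)).re := by
      intro x
      set u := (g0 * (S0⁻¹).toBlocks₁₂ + (S0⁻¹).toBlocks₂₂)⁻¹ *ᵥ x with hu
      have e0 : g0 *ᵥ ((S0⁻¹).toBlocks₁₂ *ᵥ u) + (S0⁻¹).toBlocks₂₂ *ᵥ u = x := by
        rw [mulVec_mulVec, ← add_mulVec, hu, mulVec_mulVec, mul_nonsing_inv _ hMu, one_mulVec]
      have e1 := hVU.eq22 u
      have e2 := est h0 h1 (c := g0 *ᵥ ((S0⁻¹).toBlocks₁₂ *ᵥ u))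
        (b := (S0⁻¹).toBlocks₂₂ *ᵥ u) (s := nsq ((S0⁻¹).toBlocks₁₂ *ᵥ u))
        (by linarith [nsq_nonneg u]) (hg0 _)
      rw [e0] at e2
      rw [← mulVec_mulVec]
      exact e2
    have hpos : 0 < 1 - ρ := by linarith
    refine ⟨fun x => ?_, fun x => (key x).2⟩
    have h3 := (key x).1
    rw [inv_pow, ← div_eq_inv_mul, le_div_iff₀ (by positivity), mul_comm]
    exact h3
  have hpos : 0 < (1 - ρ)⁻¹ := inv_pos.2 (by linarith)
  have hFbd : ∀ z ∈ disc, ∀ i j, ‖F z i j‖ ≤ (1 - ρ)⁻¹ := by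
    apply maj_bounded_entry hFa hFm hpos
    filter_upwards [hFb] with ζ hζ
    obtain ⟨L, hL, hLb, -⟩ := hζ
    refine ⟨L, hL, entry_le_of_contr hpos.le fun j => ?_⟩
    have := hLb (Pi.single j 1)
    rwa [nsq_single, mul_one] at this
  have hacc : ∀ z ∈ disc, ∀ x, 0 ≤ (star x ⬝ᵥ (((V z).toBlocks₂₂ * T z) *ᵥ x)).re := by
    intro z hz x
    have hd : DifferentiableOn ℂ (fun z => cexp (-(star x ⬝ᵥ (F z *ᵥ x)))) disc := fun z hz =>
      ((analyticAt_form (hFa z hz) _ _).differentiableAt.neg.cexp).differentiableWithinAt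
    have hb : ∀ z ∈ disc, ‖star x ⬝ᵥ (F z *ᵥ x)‖ ≤ ∑ i, ∑ j, ‖x i‖ * ((1 - ρ)⁻¹ * ‖x j‖) := by
      intro z hz
      simp only [dotProduct, mulVec]
      refine (norm_sum_le _ _).trans (Finset.sum_le_sum fun i _ => ?_)
      rw [norm_mul, ← Finset.mul_sum, Pi.star_apply, norm_star]
      gcongr
      refine (norm_sum_le _ _).trans (Finset.sum_le_sum fun j _ => ?_)
      rw [norm_mul]
      have := hFbd z hz i j
      gcongr
    have h3 := maj_bounded hd (Maj.of_bound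
      (C := Real.exp (∑ i, ∑ j, ‖x i‖ * ((1 - ρ)⁻¹ * ‖x j‖))) fun z hz => by
        rw [Complex.norm_exp]
        apply Real.exp_le_exp.2
        rw [Complex.neg_re]
        have := (Complex.abs_re_le_norm (star x ⬝ᵥ (F z *ᵥ x))).trans (hb z hz)
        linarith [(abs_le.1 this).1]) (by
        filter_upwards [hFb] with ζ hζ
        obtain ⟨L, hL, -, hLa⟩ := hζ
        refine ⟨cexp (-(star x ⬝ᵥ (L *ᵥ x))), ?_, ?_⟩
        · exact ((Complex.continuous_exp.tendsto _).comp (tendsto_form hL _ _).neg)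
        · rw [Complex.norm_exp, Complex.neg_re, Real.exp_le_one_iff]
          linarith [hLa x]) z hz
    rw [Complex.norm_exp, Complex.neg_re, Real.exp_le_one_iff] at h3
    change 0 ≤ (star x ⬝ᵥ (F z *ᵥ x)).re
    linarith
  have hV22 := inv_bound (h := fun _ => 1) (V := V) (T := T) (differentiableOn_const _)
    ⟨0, by simp, one_ne_zero⟩ hVa hTa hTm hacc (fun z hz _ => hTu z hz) (by
    filter_upwards [hbdry] with ζ hζ
    obtain ⟨S0, g0, hSU, hS0, hV0, hg0, hMu, hT0⟩ := hζ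
    exact ⟨S0⁻¹, _, hV0, hSU.inv, hT0⟩)
  exact const_of_bound hSa hVa hSC hVm hV22 (by
    filter_upwards [hbdry] with ζ hζ
    obtain ⟨S0, g0, hSU, hS0, hV0, hg0, hMu, hT0⟩ := hζ
    exact ⟨S0, hS0, hSU, hV0⟩)

/-- **A strictly contractive `κ` has no non-constant A-singular factor.** -/
theorem const_of_strict {S : ℂ → Matrix (m ⊕ n) (m ⊕ n) ℂ} (hS : ASingular S)
    {g g' : ℂ → Matrix n m ℂ} (hg' : IsSchur g') {ρ : ℝ} (h0 : 0 ≤ ρ) (h1 : ρ < 1)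
    (hgd : ∀ i k, DifferentiableOn ℂ (fun z => g z i k) disc)
    (hg : ∀ z ∈ disc, ∀ y : m → ℂ, nsq (g z *ᵥ y) ≤ ρ ^ 2 * nsq y)
    (hk : ∀ z ∈ disc, (g' z * (S z).toBlocks₁₂ + (S z).toBlocks₂₂) * g z
      = g' z * (S z).toBlocks₁₁ + (S z).toBlocks₂₁) :
    ∃ C, ∀ z ∈ disc, S z = C :=
  const_of_strict_aux hS h0 h1 (analyticPt_iff.1 hgd) hg (analyticPt_iff.1 hg'.1)
    (fun z hz i j => entry_le_one (nsq_of_posSemidef (hg'.2 z hz)) i j) hk

end Pool.Agent.H54RJ
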